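import Pool.Agent.Work.MP_0f0f21_an.Nagata
import Pool.Agent.Work.MP_0f0f21_an.Final

set_option autoImplicit false

open Metric Set Filter Topology

namespace Pool.Agent.Results.MP_0f0f21_an.NagataPreserved

open Pool.Agent.Work.MP_0f0f21_an

/-- The metric space `X` has Nagata dimension at most `m`: there is `c > 0` such that for every
`s > 0` the space has a cover by sets of diameter at most `c * s` in which every set of diameter
at most `s` meets at most `m + 1` members of the cover. -/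
def HasNagataDimLE (X : Type) [MetricSpace X] (m : ℕ) : Prop :=
  ∃ c : ℝ, 0 < c ∧ ∀ s : ℝ, 0 < s → ∃ 𝒰 : Set (Set X), ⋃₀ 𝒰 = univ ∧
    (∀ U ∈ 𝒰, ∀ x ∈ U, ∀ y ∈ U, dist x y ≤ c * s) ∧
    ∀ S : Set X, (∀ x ∈ S, ∀ y ∈ S, dist x y ≤ s) → {U ∈ 𝒰 | (U ∩ S).Nonempty}.encard ≤ m + 1

/-- The Nagata dimension of a metric space: the least `m` as above, `⊤` if there is none. -/
noncomputable def nagataDim (X : Type) [MetricSpace X] : ℕ∞ :=
  ⨅ (m : ℕ) (_ : HasNagataDimLE X m), (m : ℕ∞)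

lemma hasNagataDimLE_iff {n : ℕ} (A : Set (E n)) (m : ℕ) :
    HasNagataDimLE A m ↔ NagataLE A m := by
  constructor
  · rintro ⟨c, hc, h⟩
    refine ⟨c, hc, fun s hs => ?_⟩
    obtain ⟨𝒰, hcov, hmesh, hmult⟩ := h s hs
    refine ⟨(fun V : Set A => Subtype.val '' V) '' 𝒰, ?_, ?_, ?_, ?_⟩
    · rintro _ ⟨V, _, rfl⟩
      rintro _ ⟨v, _, rfl⟩
      exact v.2
    · intro x hx
      have : (⟨x, hx⟩ : A) ∈ ⋃₀ 𝒰 := by rw [hcov]; exact mem_univ _
      obtain ⟨V, hV, hxV⟩ := this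
      exact ⟨_, ⟨V, hV, rfl⟩, ⟨x, hx⟩, hxV, rfl⟩
    · rintro _ ⟨V, hV, rfl⟩
      rintro _ ⟨x, hx, rfl⟩ _ ⟨y, hy, rfl⟩
      exact hmesh V hV x hx y hy
    · intro S hSA hS
      refine le_trans ?_ (hmult (Subtype.val ⁻¹' S) (fun x hx y hy => hS x.1 hx y.1 hy))
      refine (encard_le_encard ?_).trans (encard_image_le (fun V : Set A => Subtype.val '' V) _)
      rintro _ ⟨⟨V, hV, rfl⟩, z, ⟨v, hv, rfl⟩, hzS⟩
      exact ⟨V, ⟨hV, v, hv, hzS⟩, rfl⟩
  · rintro ⟨c, hc, h⟩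
    refine ⟨c, hc, fun s hs => ?_⟩
    obtain ⟨𝒰, hsub, hcov, hmesh, hmult⟩ := h s hs
    refine ⟨(fun V : Set (E n) => (Subtype.val ⁻¹' V : Set A)) '' 𝒰, ?_, ?_, ?_⟩
    · rw [eq_univ_iff_forall]
      rintro ⟨x, hx⟩
      obtain ⟨V, hV, hxV⟩ := hcov hx
      exact ⟨_, ⟨V, hV, rfl⟩, hxV⟩
    · rintro _ ⟨V, hV, rfl⟩
      intro x hx y hy
      exact hmesh V hV x.1 hx y.1 hy
    · intro S hS
      refine le_trans ?_ (hmult (Subtype.val '' S) ?_ ?_)
      · refine (encard_le_encard ?_).trans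
          (encard_image_le (fun V : Set (E n) => (Subtype.val ⁻¹' V : Set A)) _)
        rintro _ ⟨⟨V, hV, rfl⟩, z, hz, hzS⟩
        exact ⟨V, ⟨hV, z.1, hz, z, hzS, rfl⟩, rfl⟩
      · rintro _ ⟨x, _, rfl⟩
        exact x.2
      · rintro _ ⟨x, hx, rfl⟩ _ ⟨y, hy, rfl⟩
        exact hS x hx y hy

/-- Quasiregular maps of polynomial type preserve the Nagata dimension of every set. -/
theorem result : ∀ n : ℕ, 2 ≤ n → ∀ f : E n → E n, IsQuasiregular f → IsPolynomialType f →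
    ∀ A : Set (E n), nagataDim (f '' A : Set (E n)) = nagataDim A := by
  intro n hn f hf hp A
  obtain ⟨m, rfl⟩ : ∃ m, n = m + 1 := ⟨n - 1, by omega⟩
  obtain ⟨hc, g, hg, hgn, K, hK, hqr⟩ := hf
  have hprop : Tendsto f (cocompact (E (m + 1))) (cocompact (E (m + 1))) :=
    tendsto_norm_atTop_iff_cobounded.mp hp |>.mono_right (by
      rw [Metric.cobounded_eq_cocompact])
  set q : QR (m + 1) := ⟨f, g, by omega, hc, hg, hgn, K, hK, hqr, hprop⟩ with hq
  obtain ⟨N, C, c, w, hBQ⟩ := q.toBQ (by omega)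
  have key : ∀ k, HasNagataDimLE (f '' A : Set (E (m + 1))) k ↔ HasNagataDimLE A k := by
    intro k
    rw [hasNagataDimLE_iff, hasNagataDimLE_iff]
    exact nagata_iff_of_BQ hBQ A k
  simp only [nagataDim]
  apply iInf_congr
  intro k
  simp only [key k]

end Pool.Agent.Results.MP_0f0f21_an.NagataPreserved
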